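import Pool.Agent.Y157.PC.Stm

/-!
Project PC (helper157), job NFV: the valuation rings of a number field are discrete, with finite
residue field.
-/

set_option autoImplicit false

open IsLocalRing

namespace Pool.Agent.Y143.PC

open NumberField

section
variable {k : Type} [Field k] [NumberField k] (A : ValuationSubring k)

theorem int_mem (x : 𝓞 k) : (x : k) ∈ A := by
  have h1 : IsIntegral ℤ (x : k) := x.isIntegral_coe
  have h2 : IsIntegral A (x : k) := h1.tower_top
  obtain ⟨y, hy⟩ := IsIntegrallyClosed.isIntegral_iff.1 h2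
  rw [← hy]
  exact y.2

/-- the integers as elements of the valuation ring -/
noncomputable def toA : 𝓞 k →+* A where
  toFun x := ⟨(x : k), int_mem A x⟩
  map_one' := rfl
  map_mul' _ _ := rfl
  map_zero' := rfl
  map_add' _ _ := rfl

theorem coe_toA (x : 𝓞 k) : ((toA A x : A) : k) = (x : k) := rfl

/-- the prime ideal below the valuation ring -/
noncomputable def PP : Ideal (𝓞 k) := (maximalIdeal A).comap (toA A)

instance : (PP A).IsPrime := by
  unfold PP
  infer_instance

theorem mem_PP {x : 𝓞 k} : x ∈ PP A ↔ (x : k) ∈ A.nonunits := by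
  unfold PP
  rw [Ideal.mem_comap]
  exact (ValuationSubring.coe_mem_nonunits_iff (a := toA A x)).symm

theorem PP_ne_bot {p : ℕ} (hp : p.Prime) (h : (p : k) ∈ A.nonunits) : PP A ≠ ⊥ := by
  intro hb
  have h1 : (p : 𝓞 k) ∈ PP A := by
    rw [mem_PP]
    simpa using h
  rw [hb, Ideal.mem_bot] at h1
  exact hp.ne_zero (by exact_mod_cast h1)

theorem surj {p : ℕ} (hp : p.Prime) (h : (p : k) ∈ A.nonunits) (z : A) :
    ∃ (c : 𝓞 k) (s : 𝓞 k), s ∉ PP A ∧ (z : k) * s = c := by
  have hbot := PP_ne_bot A hp h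
  obtain ⟨a, b, hb, hab⟩ := IsFractionRing.div_surjective (A := 𝓞 k) (z : k)
  have hb0 : b ≠ 0 := nonZeroDivisors.ne_zero hb
  have hb' : (b : k) ≠ 0 := by simpa using hb0
  have hz : (z : k) * b = a := by
    rw [← hab]
    exact div_mul_cancel₀ _ hb'
  by_cases ha0 : a = 0
  · refine ⟨0, 1, ?_, ?_⟩
    · exact fun h1 => (inferInstance : (PP A).IsPrime).ne_top ((Ideal.eq_top_iff_one _).2 h1)
    · rw [ha0] at hz
      have : (z : k) = 0 := by
        rcases mul_eq_zero.1 (by simpa using hz : (z : k) * b = 0) with h2 | h2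
        · exact h2
        · exact absurd h2 hb'
      rw [this]
      simp
  have := IsLocalization.AtPrime.isDiscreteValuationRing_of_dedekind_domain (𝓞 k) hbot
    (Localization.AtPrime (PP A))
  have hinj : Function.Injective (algebraMap (𝓞 k) (Localization.AtPrime (PP A))) :=
    IsLocalization.injective _ (PP A).primeCompl_le_nonZeroDivisors
  rcases ValuationRing.dvd_total (algebraMap (𝓞 k) (Localization.AtPrime (PP A)) b)
    (algebraMap (𝓞 k) (Localization.AtPrime (PP A)) a) with ⟨w, hw⟩ | ⟨w, hw⟩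
  · obtain ⟨⟨c, s⟩, hcs⟩ := IsLocalization.surj (PP A).primeCompl w
    have e1 : a * s = b * c := by
      apply hinj
      rw [map_mul, map_mul, hw, mul_assoc, hcs]
    refine ⟨c, s, s.2, ?_⟩
    have e2 : (a : k) * ((s : 𝓞 k) : k) = (b : k) * (c : k) := by
      simpa using congrArg (algebraMap (𝓞 k) k) e1
    have e3 : (b : k) * ((z : k) * ((s : 𝓞 k) : k)) = (b : k) * (c : k) := by
      rw [← e2, ← hz]; ring
    exact mul_left_cancel₀ hb' e3
  · obtain ⟨⟨c, s⟩, hcs⟩ := IsLocalization.surj (PP A).primeCompl w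
    have e1 : b * s = a * c := by
      apply hinj
      rw [map_mul, map_mul, hw, mul_assoc, hcs]
    have e2 : (b : k) * ((s : 𝓞 k) : k) = (a : k) * (c : k) := by
      simpa using congrArg (algebraMap (𝓞 k) k) e1
    have e3 : (z : k) * (c : k) = ((s : 𝓞 k) : k) := by
      have : (b : k) * ((z : k) * (c : k)) = (b : k) * ((s : 𝓞 k) : k) := by rw [e2, ← hz]; ring
      exact mul_left_cancel₀ hb' this
    refine ⟨s, c, ?_, e3⟩
    intro hc
    apply s.2
    have h4 : toA A c ∈ maximalIdeal A := hc
    have h5 : z * toA A c ∈ maximalIdeal A := Ideal.mul_mem_left _ _ h4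
    have h6 : z * toA A c = toA A (s : 𝓞 k) := Subtype.ext e3
    rw [h6] at h5
    exact h5

theorem isLoc {p : ℕ} (hp : p.Prime) (h : (p : k) ∈ A.nonunits) :
    letI := (toA A).toAlgebra
    IsLocalization.AtPrime A (PP A) := by
  let _ := (toA A).toAlgebra
  refine (isLocalization_iff _ _).2 ⟨?_, ?_, ?_⟩
  · rintro ⟨y, hy⟩
    have h1 : toA A y ∉ maximalIdeal A := hy
    exact IsLocalRing.notMem_maximalIdeal.1 h1
  · intro z
    obtain ⟨c, s, hs, hcs⟩ := surj A hp h z
    exact ⟨(c, ⟨s, hs⟩), Subtype.ext hcs⟩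
  · intro x y hxy
    refine ⟨1, ?_⟩
    have h1 : (x : k) = (y : k) := congrArg (fun t : A => (t : k)) hxy
    have h2 : x = y := RingOfIntegers.ext h1
    rw [h2]

theorem main {p : ℕ} (hp : p.Prime) (h : (p : k) ∈ A.nonunits) :
    IsDiscreteValuationRing A ∧ Finite (ResidueField A) := by
  let _ := (toA A).toAlgebra
  have := isLoc A hp h
  have hbot := PP_ne_bot A hp h
  refine ⟨IsLocalization.AtPrime.isDiscreteValuationRing_of_dedekind_domain (𝓞 k) hbot A, ?_⟩
  have : (PP A).IsMaximal := Ideal.IsPrime.isMaximal inferInstance hbot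
  have : Finite (𝓞 k ⧸ PP A) := Ideal.finiteQuotientOfFreeOfNeBot _ hbot
  exact Finite.of_equiv _ (IsLocalization.AtPrime.equivQuotMaximalIdeal (PP A) A).toEquiv

end

theorem nfv : Pool.Agent.Y157.PC.S_NFV := by
  intro κ _ _ _ k hk p hp V hV
  have hkk : @FiniteDimensional ℚ k _ _ Algebra.toModule := by
    convert hk
    exact Subsingleton.elim _ _
  have : NumberField k := { to_charZero := inferInstance, to_finiteDimensional := hkk }
  refine main (V.comap (algebraMap k κ)) hp ?_
  rw [ValuationSubring.mem_nonunits_iff_or] at hV ⊢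
  rcases hV with h | h
  · left
    have : ((p : k) : κ) = 0 := by simpa using h
    exact (algebraMap k κ).injective (by simpa using this)
  · right
    intro h1
    apply h
    have := ValuationSubring.mem_comap.1 h1
    simpa using this

end Pool.Agent.Y143.PC
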